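import Mathlib
import Pool.Agent.R39.Dec.Defs
import Pool.Agent.R39.Dec.Lower

/-!
For `n ≥ 3` every element `k < 2n-1` of `S(n)` is even and larger than `n`.
-/

set_option autoImplicit false

namespace Pool.Agent.Results.MP_7c15de_co.LowerBound

open Pool.Agent.R39.Dec

theorem result : ∀ n : ℕ, 3 ≤ n → ∀ k ∈ S n, k < 2 * n - 1 → Even k ∧ n < k := by
  intro n hn k hk hlt
  have h1 := le_of_mem_S (by omega) hk
  have h2 : Even k := by
    rcases Nat.even_or_odd k with he | ho
    · exact he
    · exact absurd hk (odd_not_mem_S (by omega) ho hlt)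
  refine ⟨h2, ?_⟩
  rcases Nat.lt_or_ge n k with h | h
  · exact h
  · have h3 : k = n := le_antisymm h h1
    subst h3
    obtain ⟨r, hr⟩ := h2
    exact absurd hk (self_not_mem_S (by omega))

end Pool.Agent.Results.MP_7c15de_co.LowerBound
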